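import Pool.Agent.Helper332.RealLine5

/-! # S-separable topological groups: permanence properties -/

set_option autoImplicit false
set_option linter.unusedSectionVars false

open TopologicalSpace Set Topology

namespace Pool.Agent.Y167.SSep

/-- The topological group `G` is S-separable: for every Hausdorff topological group `H` all of whose
closed subgroups are separable, all closed subgroups of `G × H` are separable. -/
def SSeparable (G : Type) [Group G] [TopologicalSpace G] : Prop :=
  ∀ (H : Type) [Group H] [TopologicalSpace H] [IsTopologicalGroup H] [T2Space H],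
    (∀ K : Subgroup H, IsClosed (K : Set H) → SeparableSpace K) →
    ∀ L : Subgroup (G × H), IsClosed (L : Set (G × H)) → SeparableSpace L

theorem SSeparable.of_surjective {G G' : Type} [Group G] [TopologicalSpace G] [Group G']
    [TopologicalSpace G'] (h : SSeparable G) (φ : G →* G') (hφ : Continuous φ)
    (hs : Function.Surjective φ) : SSeparable G' := by
  intro H _ _ _ _ hH L hL
  let ψ : G × H →* G' × H := φ.prodMap (MonoidHom.id H)
  have hψ : Continuous ψ := (hφ.comp continuous_fst).prodMk continuous_snd
  have h1 := h H hH (L.comap ψ) (hL.preimage hψ)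
  let f : L.comap ψ → L := fun x => ⟨ψ x, x.2⟩
  have hf : Continuous f := Continuous.subtype_mk (hψ.comp continuous_subtype_val) _
  have hfs : Function.Surjective f := by
    rintro ⟨⟨a, b⟩, hab⟩
    obtain ⟨x, rfl⟩ := hs a
    exact ⟨⟨(x, b), hab⟩, rfl⟩
  exact hfs.denseRange.separableSpace hf

theorem SSeparable.of_isClosedEmbedding {G G' : Type} [Group G] [TopologicalSpace G] [Group G']
    [TopologicalSpace G'] (h : SSeparable G) (ι : G' →* G) (hι : IsClosedEmbedding ι) : SSeparable G' := by
  intro H _ _ _ _ hH L hL
  let ψ : G' × H →* G × H := ι.prodMap (MonoidHom.id H)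
  have hψ : IsClosedEmbedding ψ := hι.prodMap IsClosedEmbedding.id
  have h1 := h H hH (L.map ψ) (by rw [Subgroup.coe_map]; exact hψ.isClosedMap _ hL)
  let g : L → L.map ψ := fun x => ⟨ψ x, x, x.2, rfl⟩
  have hg : IsInducing g := by
    have h2 : IsInducing (Subtype.val ∘ g) := by
      change IsInducing (ψ ∘ Subtype.val)
      exact hψ.isInducing.comp IsInducing.subtypeVal
    exact h2.of_comp (Continuous.subtype_mk (hψ.continuous.comp continuous_subtype_val) _)
      continuous_subtype_val
  have hgi : Function.Injective g := by
    intro x y hxy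
    exact Subtype.ext (hψ.injective (congrArg Subtype.val hxy))
  have hgs : Function.Surjective g := by
    rintro ⟨_, x, hx, rfl⟩
    exact ⟨⟨x, hx⟩, rfl⟩
  obtain ⟨D, hD, hDd⟩ := exists_countable_dense (L.map ψ)
  exact Pool.Agent.Helper332.RealLine.separable_of_inducing g hg hgi D hD
    (fun x _ => hgs x) (fun x _ => hDd x)

/-- The real line is not S-separable (the starting library). -/
theorem not_sSep_real : ¬ SSeparable (Multiplicative ℝ) := by
  intro h
  obtain ⟨H, i1, i2, i3, i4, hH, L, hL, hLs⟩ :=
    Pool.Agent.Helper332.RealLine.real_not_S_separable_mul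
  exact hLs (h H hH L hL)

/-- An extension of a separable group by a separable group is separable. -/
theorem separable_of_open {A B : Type} [Group A] [TopologicalSpace A] [IsTopologicalGroup A]
    [Group B] [TopologicalSpace B] [SeparableSpace B] (f : A →* B) (ho : IsOpenMap f)
    (hs : Function.Surjective f) (hk : SeparableSpace f.ker) : SeparableSpace A := by
  obtain ⟨D, hD, hDd⟩ := exists_countable_dense B
  obtain ⟨E, hE, hEd⟩ := exists_countable_dense f.ker
  choose s hs using hs
  refine ⟨⟨Set.image2 (fun b (k : f.ker) => s b * (k : A)) D E, hD.image2 hE _, ?_⟩⟩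
  rw [dense_iff_inter_open]
  intro U hU hUn
  obtain ⟨b, hb1, hb2⟩ := hDd.inter_open_nonempty (f '' U) (ho U hU) (hUn.image f)
  obtain ⟨u, hu, hub⟩ := hb1
  have hV : IsOpen {k : f.ker | s b * (k : A) ∈ U} :=
    hU.preimage (continuous_const.mul continuous_subtype_val)
  have hVn : {k : f.ker | s b * (k : A) ∈ U}.Nonempty := by
    refine ⟨⟨(s b)⁻¹ * u, ?_⟩, ?_⟩
    · rw [MonoidHom.mem_ker, map_mul, map_inv, hs, hub, inv_mul_cancel]
    · simpa using hu
  obtain ⟨k, hk1, hk2⟩ := hEd.inter_open_nonempty _ hV hVn
  exact ⟨_, hk1, b, hb2, k, hk2, rfl⟩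

/-- The closed subgroups of `N × H` are separable if `N` is a compact second countable group and
the closed subgroups of `H` are separable. -/
theorem separable_of_compact {N H : Type} [Group N] [TopologicalSpace N] [IsTopologicalGroup N]
    [CompactSpace N] [SecondCountableTopology N] [Group H] [TopologicalSpace H]
    [IsTopologicalGroup H]
    (hH : ∀ K : Subgroup H, IsClosed (K : Set H) → SeparableSpace K)
    (M : Subgroup (N × H)) (hM : IsClosed (M : Set (N × H))) : SeparableSpace M := by
  let P : Subgroup H := M.map (MonoidHom.snd N H)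
  have hP : IsClosed (P : Set H) := by
    have h1 : (P : Set H) = Prod.snd '' (M : Set (N × H)) := rfl
    rw [h1]
    exact isClosedMap_snd_of_compactSpace _ hM
  have hPs := hH P hP
  let f : M →* P := (MonoidHom.snd N H).subgroupMap M
  have hfs : Function.Surjective f := (MonoidHom.snd N H).subgroupMap_surjective M
  have hfc : Continuous f :=
    Continuous.subtype_mk (continuous_snd.comp continuous_subtype_val) _
  have hfcl : IsClosedMap f := by
    have h1 : IsClosedMap (Subtype.val ∘ f) := by
      change IsClosedMap (Prod.snd ∘ Subtype.val)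
      exact isClosedMap_snd_of_compactSpace.comp hM.isClosedMap_subtype_val
    intro C hC
    have h2 := h1 C hC
    rw [Set.image_comp] at h2
    have h3 : f '' C = Subtype.val ⁻¹' (Subtype.val '' (f '' C)) :=
      (Set.preimage_image_eq _ Subtype.val_injective).symm
    rw [h3]
    exact h2.preimage continuous_subtype_val
  have hq : IsQuotientMap f := hfcl.isQuotientMap hfc hfs
  have ho : IsOpenQuotientMap f := MonoidHom.isOpenQuotientMap_of_isQuotientMap hq
  refine separable_of_open f ho.isOpenMap hfs ?_
  let k : f.ker → N := fun x => ((x : M) : N × H).1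
  have hk : IsInducing k := by
    have h1 : IsInducing ((fun n : N => ((n, 1) : N × H)) ∘ k) := by
      have h2 : ((fun n : N => ((n, 1) : N × H)) ∘ k) =
          (Subtype.val : M → N × H) ∘ (Subtype.val : f.ker → M) := by
        funext x
        apply Prod.ext
        · rfl
        · have h3 : f (x : M) = 1 := x.2
          exact (congrArg Subtype.val h3).symm
      rw [h2]
      exact IsInducing.subtypeVal.comp IsInducing.subtypeVal
    exact h1.of_comp (continuous_fst.comp (continuous_subtype_val.comp continuous_subtype_val))
      (continuous_id.prodMk continuous_const)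
  have hsc : SecondCountableTopology f.ker := hk.secondCountableTopology
  infer_instance

/-- A topological group with a compact second countable subgroup of countable index is
S-separable. -/
theorem sSep_of_compact {G : Type} [Group G] [TopologicalSpace G] [IsTopologicalGroup G]
    (N : Subgroup G) (hN : IsCompact (N : Set G)) [SecondCountableTopology N]
    [Countable (G ⧸ N)] : SSeparable G := by
  intro H _ _ _ _ hH L hL
  have hNc : CompactSpace N := isCompact_iff_compactSpace.1 hN
  let j : N × H →* G × H := N.subtype.prodMap (MonoidHom.id H)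
  have hj : Continuous j := (continuous_subtype_val.comp continuous_fst).prodMk continuous_snd
  let M : Subgroup (N × H) := L.comap j
  have hM : SeparableSpace M := separable_of_compact hH M (hL.preimage hj)
  obtain ⟨D, hD, hDd⟩ := exists_countable_dense M
  -- representatives
  let q : L → G ⧸ N := fun x => ((x : G × H).1 : G ⧸ N)
  let s : Set.range q → L := fun y => y.2.choose
  have hs : ∀ y, q (s y) = y := fun y => y.2.choose_spec
  have hcr : Countable (Set.range q) := Subtype.countable
  let T : Set (G × H) := Set.image2 (fun (y : Set.range q) (m : M) =>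
    ((s y : L) : G × H) * j (m : N × H)) Set.univ D
  have hTc : T.Countable := Set.Countable.image2 (Set.countable_univ) hD _
  have hTL : T ⊆ (L : Set (G × H)) := by
    rintro _ ⟨y, -, m, -, rfl⟩
    exact L.mul_mem (s y).2 m.2
  have hLT : (L : Set (G × H)) ⊆ closure T := by
    intro x hx
    let y : Set.range q := ⟨q ⟨x, hx⟩, ⟨x, hx⟩, rfl⟩
    let x₀ : G × H := ((s y : L) : G × H)
    have h1 : (x₀⁻¹ * x).1 ∈ N := by
      have h2 : ((x₀.1 : G) : G ⧸ N) = ((x.1 : G) : G ⧸ N) := hs y
      rw [QuotientGroup.eq] at h2
      exact h2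
    have h3 : ((⟨(x₀⁻¹ * x).1, h1⟩ : N), (x₀⁻¹ * x).2) ∈ M := by
      change j ((⟨(x₀⁻¹ * x).1, h1⟩ : N), (x₀⁻¹ * x).2) ∈ L
      exact L.mul_mem (L.inv_mem (s y).2) hx
    have hF : Continuous (fun m : M => x₀ * j (m : N × H)) :=
      continuous_const.mul (hj.comp continuous_subtype_val)
    have h4 : (fun m : M => x₀ * j (m : N × H)) ⟨_, h3⟩ ∈ closure T := by
      have h5 := hF.closure_preimage_subset T
      apply h5
      refine closure_mono ?_ (hDd ⟨_, h3⟩)
      intro m hm
      exact ⟨y, Set.mem_univ _, m, hm, rfl⟩
    have h6 : (fun m : M => x₀ * j (m : N × H)) ⟨_, h3⟩ = x := by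
      change x₀ * (x₀⁻¹ * x) = x
      rw [mul_inv_cancel_left]
    rwa [h6] at h4
  exact Pool.Agent.Helper332.RealLine.separable_of_inducing (Subtype.val : L → G × H)
    IsInducing.subtypeVal Subtype.val_injective T hTc
    (fun t ht => ⟨⟨t, hTL ht⟩, rfl⟩) (by rintro _ ⟨x, rfl⟩; exact hLT x.2)

end Pool.Agent.Y167.SSep
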