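import Pool.Agent.Y167.SSep.Lin

/-! # Groups with an open subgroup which embeds in `E × K` -/

set_option autoImplicit false
set_option linter.unusedSectionVars false

open TopologicalSpace Set Topology Filter

namespace Pool.Agent.Y167.SSep

/-- A topological group with an open second countable subgroup of countable index is second
countable. -/
theorem secondCountable_of_open {G : Type} [Group G] [TopologicalSpace G] [IsTopologicalGroup G]
    (U : Subgroup G) (hU : IsOpen (U : Set G)) [Countable (G ⧸ U)] [SecondCountableTopology U] :
    SecondCountableTopology G := by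
  let S : G ⧸ U → Set G := fun q => (fun g => q.out⁻¹ * g) ⁻¹' (U : Set G)
  have hS : ∀ q, IsOpen (S q) := fun q => hU.preimage (continuous_const_mul _)
  have hcov : ⋃ q, S q = univ := by
    rw [eq_univ_iff_forall]
    intro g
    rw [mem_iUnion]
    refine ⟨(g : G ⧸ U), ?_⟩
    change (Quotient.out (g : G ⧸ U))⁻¹ * g ∈ U
    rw [← QuotientGroup.eq]
    exact QuotientGroup.out_eq' _
  have hsc : ∀ q, SecondCountableTopology (S q) := by
    intro q
    let k : S q → U := fun x => ⟨q.out⁻¹ * x, x.2⟩
    have hk : IsInducing k := by
      have h1 : IsInducing (Subtype.val ∘ k) := by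
        change IsInducing ((Homeomorph.mulLeft (q.out⁻¹)) ∘ (Subtype.val : S q → G))
        exact (Homeomorph.mulLeft (q.out⁻¹)).isInducing.comp IsInducing.subtypeVal
      exact h1.of_comp (Continuous.subtype_mk
        ((continuous_const_mul _).comp continuous_subtype_val) _) continuous_subtype_val
    exact hk.secondCountableTopology
  exact secondCountableTopology_of_countable_cover hS hcov

/-- The quotient of a second countable group by an open subgroup is countable. -/
theorem countable_quotient {G : Type} [Group G] [TopologicalSpace G] [IsTopologicalGroup G]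
    [SecondCountableTopology G] (N : Subgroup G) (hN : IsOpen (N : Set G)) :
    Countable (G ⧸ N) := by
  have h1 : DiscreteTopology (G ⧸ N) := QuotientGroup.discreteTopology hN
  have h2 : SeparableSpace (G ⧸ N) :=
    (QuotientGroup.mk_surjective (s := N)).denseRange.separableSpace continuous_quot_mk
  exact separableSpace_iff_countable.1 h2

section

variable {E : Type} [NormedAddCommGroup E] [NormedSpace ℝ E] [FiniteDimensional ℝ E]
  {K : Type} [Group K] [TopologicalSpace K] [IsTopologicalGroup K] [CompactSpace K]
  [SecondCountableTopology K] [T2Space K]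

theorem exists_compact_open (R : Subgroup (Multiplicative E × K))
    (hR : IsClosed (R : Set (Multiplicative E × K))) (h : DiscreteTopology (pr R)) :
    ∃ N : Subgroup R, IsCompact (N : Set R) ∧ IsOpen (N : Set R) := by
  let φ : R →* Multiplicative E := (MonoidHom.fst (Multiplicative E) K).comp R.subtype
  refine ⟨φ.ker, ?_, ?_⟩
  · rw [IsInducing.subtypeVal.isCompact_iff]
    have h1 : (Subtype.val '' (φ.ker : Set R) : Set (Multiplicative E × K)) =
        ({1} ×ˢ univ) ∩ (R : Set (Multiplicative E × K)) := by
      ext x
      constructor
      · rintro ⟨y, hy, rfl⟩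
        exact ⟨⟨hy, mem_univ _⟩, y.2⟩
      · rintro ⟨⟨hx, -⟩, hxG⟩
        exact ⟨⟨x, hxG⟩, hx, rfl⟩
    have h2 : IsCompact (({1} ×ˢ univ) ∩ (R : Set (Multiplicative E × K))) :=
      (isCompact_singleton.prod isCompact_univ).inter_right hR
    rw [← h1] at h2
    exact h2
  · let f : R → pr R := fun x => ⟨Multiplicative.toAdd ((x : Multiplicative E × K).1), x, x.2, rfl⟩
    have hf : Continuous f := Continuous.subtype_mk
      (continuous_toAdd.comp (continuous_fst.comp continuous_subtype_val)) _
    have h1 : (φ.ker : Set R) = f ⁻¹' {0} := by
      ext x
      constructor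
      · intro hx
        exact Subtype.ext hx
      · intro hx
        exact congrArg Subtype.val hx
    rw [h1]
    exact (isOpen_discrete _).preimage hf

/-- **Classification.** Let `G` be a topological group with an open subgroup `U` of countable index
which is topologically isomorphic to a closed subgroup of the product of a finite dimensional real
vector space and a compact metrizable group. Then `G` is S-separable if and only if it has a
compact open subgroup, and if and only if it has a compact subgroup with countable quotient. -/
theorem sSep_iff_of_open {G : Type} [Group G] [TopologicalSpace G] [IsTopologicalGroup G]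
    (U : Subgroup G) (hU : IsOpen (U : Set G)) [Countable (G ⧸ U)]
    (j : U →* Multiplicative E × K) (hj : IsClosedEmbedding j) :
    (SSeparable G ↔ ∃ N : Subgroup G, IsCompact (N : Set G) ∧ IsOpen (N : Set G)) ∧
    (SSeparable G ↔ ∃ N : Subgroup G, IsCompact (N : Set G) ∧ Countable (G ⧸ N)) := by
  have e0 : ProperSpace E := FiniteDimensional.proper_real E
  have e1 : SecondCountableTopology (Multiplicative E) := inferInstanceAs (SecondCountableTopology E)
  have e2 : SecondCountableTopology U := hj.isInducing.secondCountableTopology
  have e3 : SecondCountableTopology G := secondCountable_of_open U hU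
  have ab : SSeparable G → ∃ N : Subgroup G, IsCompact (N : Set G) ∧ IsOpen (N : Set G) := by
    intro h
    have hUc : IsClosed (U : Set G) := U.isClosed_of_isOpen hU
    have h1 : SSeparable U := h.of_isClosedEmbedding U.subtype hUc.isClosedEmbedding_subtypeVal
    have hRc : IsClosed (j.range : Set (Multiplicative E × K)) := by
      rw [MonoidHom.coe_range]
      exact hj.isClosed_range
    have hjr : IsClosedEmbedding j.rangeRestrict := by
      rw [← (hRc.isClosedEmbedding_subtypeVal).of_comp_iff]
      exact hj
    have h2 : SSeparable j.range :=
      h1.of_surjective j.rangeRestrict hjr.continuous j.rangeRestrict_surjective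
    obtain ⟨N, hNc, hNo⟩ := exists_compact_open j.range hRc (discrete_of_sSep j.range hRc h2)
    refine ⟨(N.comap j.rangeRestrict).map U.subtype, ?_, ?_⟩
    · rw [Subgroup.coe_map]
      exact (hjr.isCompact_preimage hNc).image continuous_subtype_val
    · rw [Subgroup.coe_map]
      exact hU.isOpenEmbedding_subtypeVal.isOpenMap _ (hNo.preimage hjr.continuous)
  have bc : (∃ N : Subgroup G, IsCompact (N : Set G) ∧ IsOpen (N : Set G)) →
      ∃ N : Subgroup G, IsCompact (N : Set G) ∧ Countable (G ⧸ N) := by
    rintro ⟨N, h1, h2⟩
    exact ⟨N, h1, countable_quotient N h2⟩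
  have ca : (∃ N : Subgroup G, IsCompact (N : Set G) ∧ Countable (G ⧸ N)) → SSeparable G := by
    rintro ⟨N, h1, h2⟩
    have h3 : SecondCountableTopology N := IsInducing.subtypeVal.secondCountableTopology
    exact sSep_of_compact N h1
  exact ⟨⟨ab, fun h => ca (bc h)⟩, ⟨fun h => bc (ab h), ca⟩⟩

end

end Pool.Agent.Y167.SSep
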