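import Pool.Agent.Y167.SSep.Main

/-! # General and special linear groups are not S-separable -/

set_option autoImplicit false
set_option linter.unusedSectionVars false

open TopologicalSpace Set Topology Filter

namespace Pool.Agent.Y167.SSep

theorem not_sSep_GL (n : ℕ) (hn : 1 ≤ n) : ¬ SSeparable (Matrix.GeneralLinearGroup (Fin n) ℝ) := by
  intro h
  have hd : ∀ g : Matrix.GeneralLinearGroup (Fin n) ℝ,
      (g : Matrix (Fin n) (Fin n) ℝ).det ≠ 0 := fun g => by
    have h1 := (Matrix.isUnit_iff_isUnit_det (g : Matrix (Fin n) (Fin n) ℝ)).1 g.isUnit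
    exact h1.ne_zero
  let χ : Matrix.GeneralLinearGroup (Fin n) ℝ →* Multiplicative ℝ :=
    { toFun := fun g => Multiplicative.ofAdd (Real.log |(g : Matrix (Fin n) (Fin n) ℝ).det|)
      map_one' := by simp
      map_mul' := by
        intro a b
        rw [Units.val_mul, Matrix.det_mul, abs_mul, Real.log_mul (abs_ne_zero.2 (hd a))
          (abs_ne_zero.2 (hd b)), ofAdd_add] }
  have hχ : Continuous χ := by
    apply continuous_ofAdd.comp
    exact (Continuous.matrix_det Units.continuous_val).abs.log fun g => abs_ne_zero.2 (hd g)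
  have hχs : Function.Surjective χ := by
    intro t
    let i0 : Fin n := ⟨0, hn⟩
    let D : Matrix (Fin n) (Fin n) ℝ :=
      Matrix.diagonal fun i => if i = i0 then Real.exp (Multiplicative.toAdd t) else 1
    have hD : D.det = Real.exp (Multiplicative.toAdd t) := by
      simp [D, Matrix.det_diagonal]
    refine ⟨Matrix.GeneralLinearGroup.mkOfDetNeZero D (by rw [hD]; exact Real.exp_ne_zero _), ?_⟩
    change Multiplicative.ofAdd (Real.log |D.det|) = t
    rw [hD, abs_of_pos (Real.exp_pos _), Real.log_exp]
    rfl
  exact not_sSep_real (h.of_surjective χ hχ hχs)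

theorem not_sSep_SL (n : ℕ) (hn : 2 ≤ n) : ¬ SSeparable (Matrix.SpecialLinearGroup (Fin n) ℝ) := by
  intro h
  let i0 : Fin n := ⟨0, by omega⟩
  let i1 : Fin n := ⟨1, by omega⟩
  have hij : i0 ≠ i1 := by
    intro h
    simpa [i0, i1] using congrArg Fin.val h
  let ι : Multiplicative ℝ →* Matrix.SpecialLinearGroup (Fin n) ℝ :=
    { toFun := fun t => ⟨Matrix.transvection i0 i1 (Multiplicative.toAdd t),
        Matrix.det_transvection_of_ne i0 i1 hij _⟩
      map_one' := by
        apply Subtype.ext
        exact Matrix.transvection_zero i0 i1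
      map_mul' := by
        intro a b
        apply Subtype.ext
        exact (Matrix.transvection_mul_transvection_same i0 i1 hij _ _).symm }
  have hι : Continuous ι := by
    apply Continuous.subtype_mk
    unfold Matrix.transvection
    refine continuous_const.add ?_
    refine continuous_matrix fun a b => ?_
    by_cases hab : i0 = a ∧ i1 = b
    · obtain ⟨rfl, rfl⟩ := hab
      simp only [Matrix.single_apply_same]
      exact continuous_toAdd
    · simp only [Matrix.single_apply_of_ne _ _ _ _ _ hab]
      exact continuous_const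
  have hl : Continuous (fun g : Matrix.SpecialLinearGroup (Fin n) ℝ =>
      Multiplicative.ofAdd ((g : Matrix (Fin n) (Fin n) ℝ) i0 i1)) :=
    continuous_ofAdd.comp ((continuous_apply_apply i0 i1).comp continuous_subtype_val)
  have hli : Function.LeftInverse (fun g : Matrix.SpecialLinearGroup (Fin n) ℝ =>
      Multiplicative.ofAdd ((g : Matrix (Fin n) (Fin n) ℝ) i0 i1)) ι := by
    intro t
    change Multiplicative.ofAdd (Matrix.transvection i0 i1 (Multiplicative.toAdd t) i0 i1) = t
    rw [Matrix.transvection, Matrix.add_apply, Matrix.one_apply_ne hij, zero_add,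
      Matrix.single_apply_same]
    rfl
  exact not_sSep_real (h.of_isClosedEmbedding ι (hli.isClosedEmbedding hl hι))

end Pool.Agent.Y167.SSep
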