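import Pool.Agent.Y167.SSep.Basic

/-! # Which closed subgroups of `E × K` are S-separable -/

set_option autoImplicit false
set_option linter.unusedSectionVars false

open TopologicalSpace Set Topology Filter

namespace Pool.Agent.Y167.SSep

/-- A closed subgroup of a finite dimensional real vector space is discrete or contains a line. -/
theorem discrete_or_line {E : Type} [NormedAddCommGroup E] [NormedSpace ℝ E]
    [FiniteDimensional ℝ E] (A : AddSubgroup E) (hA : IsClosed (A : Set E)) :
    DiscreteTopology A ∨ ∃ u : E, u ≠ 0 ∧ ∀ t : ℝ, t • u ∈ A := by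
  have : ProperSpace E := FiniteDimensional.proper_real E
  by_cases h : ∃ ε > 0, ∀ a ∈ A, ‖a‖ < ε → a = 0
  · left
    obtain ⟨ε, hε, h⟩ := h
    apply discreteTopology_of_isOpen_singleton_zero
    have h1 : ({0} : Set A) = Subtype.val ⁻¹' (Metric.ball (0 : E) ε) := by
      ext ⟨x, hx⟩
      constructor
      · intro h2
        rw [Set.mem_singleton_iff] at h2
        rw [h2]
        exact Metric.mem_ball_self hε
      · intro h2
        have h3 : x = 0 := h x hx (mem_ball_zero_iff.1 h2)
        exact Subtype.ext h3
    rw [h1]
    exact Metric.isOpen_ball.preimage continuous_subtype_val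
  · right
    push Not at h
    have h1 : ∀ n : ℕ, ∃ a ∈ A, ‖a‖ < 1 / ((n : ℝ) + 1) ∧ a ≠ 0 := fun n =>
      h _ (by positivity)
    choose a haA han ha0 using h1
    have hpos : ∀ n, 0 < ‖a n‖ := fun n => norm_pos_iff.2 (ha0 n)
    obtain ⟨u, hu, φ, hφ, hlim⟩ := (isCompact_sphere (0 : E) 1).tendsto_subseq
      (x := fun n => (‖a n‖)⁻¹ • a n) (fun n => by
        rw [mem_sphere_zero_iff_norm, norm_smul, norm_inv, norm_norm,
          inv_mul_cancel₀ (hpos n).ne'])
    have hs0 : Tendsto (fun n => ‖a (φ n)‖) atTop (𝓝 0) :=
      squeeze_zero (fun n => norm_nonneg _) (fun n => (han (φ n)).le)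
        ((tendsto_one_div_add_atTop_nhds_zero_nat (𝕜 := ℝ)).comp hφ.tendsto_atTop)
    refine ⟨u, ?_, fun t => ?_⟩
    · rintro rfl
      simp at hu
    · have h2 : Tendsto (fun n => (⌊t / ‖a (φ n)‖⌋ : ℝ) * ‖a (φ n)‖) atTop (𝓝 t) := by
        rw [tendsto_iff_norm_sub_tendsto_zero]
        refine squeeze_zero (fun n => norm_nonneg _) (fun n => ?_) hs0
        have hp := hpos (φ n)
        have e1 := Int.floor_le (t / ‖a (φ n)‖)
        have e2 := Int.lt_floor_add_one (t / ‖a (φ n)‖)
        have e3 : t / ‖a (φ n)‖ * ‖a (φ n)‖ = t := div_mul_cancel₀ t hp.ne'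
        rw [Real.norm_eq_abs, abs_le]
        constructor
        · nlinarith
        · nlinarith
      have h3 := h2.smul hlim
      refine hA.mem_of_tendsto h3 (Eventually.of_forall fun n => ?_)
      have h4 : ((⌊t / ‖a (φ n)‖⌋ : ℝ) * ‖a (φ n)‖) • ((fun n => (‖a n‖)⁻¹ • a n) ∘ φ) n =
          (⌊t / ‖a (φ n)‖⌋ : ℤ) • a (φ n) := by
        simp only [Function.comp_apply]
        rw [smul_smul, mul_assoc, mul_inv_cancel₀ (hpos _).ne', mul_one, Int.cast_smul_eq_zsmul]
      rw [SetLike.mem_coe, h4]
      exact A.zsmul_mem (haA _) _

/-- No nonzero Hausdorff real topological vector space is S-separable. -/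
theorem not_sSep_tvs (E : Type) [AddCommGroup E] [TopologicalSpace E] [IsTopologicalAddGroup E]
    [Module ℝ E] [ContinuousSMul ℝ E] [T2Space E] [Nontrivial E] : ¬ SSeparable (Multiplicative E) := by
  intro h
  obtain ⟨u, hu⟩ := exists_ne (0 : E)
  let ι : Multiplicative ℝ →* Multiplicative E :=
    { toFun := fun t => Multiplicative.ofAdd (Multiplicative.toAdd t • u)
      map_one' := by simp
      map_mul' := by
        intro a b
        rw [toAdd_mul, add_smul, ofAdd_add] }
  have h0 : IsClosedEmbedding (fun x : ℝ => x • u) := isClosedEmbedding_smul_left hu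
  have hι : IsClosedEmbedding ι := h0
  exact not_sSep_real (h.of_isClosedEmbedding ι hι)

/-- A topological group with a closed subgroup which has a continuous surjective homomorphism to
the real line is not S-separable. -/
theorem not_sSep_of_hom {G : Type} [Group G] [TopologicalSpace G] (S : Subgroup G)
    (hS : IsClosed (S : Set G)) (χ : S →* Multiplicative ℝ) (hχ : Continuous χ)
    (hχs : Function.Surjective χ) : ¬ SSeparable G := fun h =>
  not_sSep_real ((h.of_isClosedEmbedding S.subtype hS.isClosedEmbedding_subtypeVal).of_surjective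
    χ hχ hχs)

section

variable {E : Type} [NormedAddCommGroup E] [NormedSpace ℝ E] [FiniteDimensional ℝ E]
  {K : Type} [Group K] [TopologicalSpace K] [IsTopologicalGroup K] [CompactSpace K]
  [SecondCountableTopology K] [T2Space K]

/-- the projection of `G` to `E`, as an additive subgroup -/
def pr (G : Subgroup (Multiplicative E × K)) : AddSubgroup E where
  carrier := {x | Multiplicative.ofAdd x ∈ G.map (MonoidHom.fst (Multiplicative E) K)}
  zero_mem' := (G.map (MonoidHom.fst (Multiplicative E) K)).one_mem
  add_mem' := fun ha hb => (G.map (MonoidHom.fst (Multiplicative E) K)).mul_mem ha hb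
  neg_mem' := fun ha => (G.map (MonoidHom.fst (Multiplicative E) K)).inv_mem ha

theorem discrete_of_sSep (G : Subgroup (Multiplicative E × K))
    (hG : IsClosed (G : Set (Multiplicative E × K))) (h : SSeparable G) : DiscreteTopology (pr G) := by
  have hA : IsClosed ((G.map (MonoidHom.fst (Multiplicative E) K) : Subgroup (Multiplicative E)) :
      Set (Multiplicative E)) :=
    isClosedMap_fst_of_compactSpace _ hG
  have hA' : IsClosed (pr G : Set E) := hA.preimage continuous_ofAdd
  rcases discrete_or_line (pr G) hA' with h1 | ⟨u, hu, hline⟩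
  · exact h1
  · exfalso
    have h2 : SSeparable (G.map (MonoidHom.fst (Multiplicative E) K)) :=
      h.of_surjective ((MonoidHom.fst (Multiplicative E) K).subgroupMap G)
        (Continuous.subtype_mk (continuous_fst.comp continuous_subtype_val) _)
        ((MonoidHom.fst (Multiplicative E) K).subgroupMap_surjective G)
    let ι : Multiplicative ℝ →* G.map (MonoidHom.fst (Multiplicative E) K) :=
      { toFun := fun t => ⟨Multiplicative.ofAdd (Multiplicative.toAdd t • u), hline _⟩
        map_one' := by
          apply Subtype.ext
          simp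
        map_mul' := by
          intro a b
          apply Subtype.ext
          change Multiplicative.ofAdd (Multiplicative.toAdd (a * b) • u) = _
          rw [toAdd_mul, add_smul, ofAdd_add]
          rfl }
    have hι : IsClosedEmbedding ι := by
      rw [← (hA.isClosedEmbedding_subtypeVal).of_comp_iff]
      have h0 : IsClosedEmbedding (fun x : ℝ => x • u) := isClosedEmbedding_smul_left hu
      exact h0
    exact not_sSep_real (h2.of_isClosedEmbedding ι hι)

theorem countable_of_discrete (G : Subgroup (Multiplicative E × K))
    (h : DiscreteTopology (pr G)) : (Prod.fst '' (G : Set (Multiplicative E × K))).Countable := by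
  have : ProperSpace E := FiniteDimensional.proper_real E
  have h1 : Countable (pr G) := separableSpace_iff_countable.1 inferInstance
  have h2 : (pr G : Set E).Countable := Set.countable_coe_iff.1 h1
  exact h2.image Multiplicative.ofAdd |>.mono (by
    rintro _ ⟨x, hx, rfl⟩
    exact ⟨Multiplicative.toAdd x.1, ⟨x, hx, rfl⟩, rfl⟩)

theorem exists_compact_of_countable (G : Subgroup (Multiplicative E × K))
    (hG : IsClosed (G : Set (Multiplicative E × K)))
    (h : (Prod.fst '' (G : Set (Multiplicative E × K))).Countable) :
    ∃ N : Subgroup G, IsCompact (N : Set G) ∧ Countable (G ⧸ N) := by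
  let φ : G →* Multiplicative E := (MonoidHom.fst (Multiplicative E) K).comp G.subtype
  refine ⟨φ.ker, ?_, ?_⟩
  · rw [IsInducing.subtypeVal.isCompact_iff]
    have h1 : (Subtype.val '' (φ.ker : Set G) : Set (Multiplicative E × K)) =
        ({1} ×ˢ univ) ∩ (G : Set (Multiplicative E × K)) := by
      ext x
      constructor
      · rintro ⟨y, hy, rfl⟩
        exact ⟨⟨hy, mem_univ _⟩, y.2⟩
      · rintro ⟨⟨hx, -⟩, hxG⟩
        exact ⟨⟨x, hxG⟩, hx, rfl⟩
    have h2 : IsCompact (({1} ×ˢ univ) ∩ (G : Set (Multiplicative E × K))) :=
      (isCompact_singleton.prod isCompact_univ).inter_right hG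
    rw [← h1] at h2
    exact h2
  · have h1 : (φ.range : Set (Multiplicative E)) = Prod.fst '' (G : Set (Multiplicative E × K)) := by
      ext x
      constructor
      · rintro ⟨y, rfl⟩
        exact ⟨y, y.2, rfl⟩
      · rintro ⟨y, hy, rfl⟩
        exact ⟨⟨y, hy⟩, rfl⟩
    have h2 : Countable φ.range := by
      have h3 : (φ.range : Set (Multiplicative E)).Countable := by rw [h1]; exact h
      exact h3.to_subtype
    exact (QuotientGroup.quotientKerEquivRange φ).injective.countable

theorem sSep_of_exists (G : Subgroup (Multiplicative E × K))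
    (h : ∃ N : Subgroup G, IsCompact (N : Set G) ∧ Countable (G ⧸ N)) : SSeparable G := by
  have h0 : ProperSpace E := FiniteDimensional.proper_real E
  have h1 : SecondCountableTopology (Multiplicative E) := inferInstanceAs (SecondCountableTopology E)
  obtain ⟨N, hN, hc⟩ := h
  have h2 : SecondCountableTopology G := IsInducing.subtypeVal.secondCountableTopology
  have h3 : SecondCountableTopology N := IsInducing.subtypeVal.secondCountableTopology
  exact sSep_of_compact N hN

/-- **Classification.** A closed subgroup of the product of a finite dimensional real vector space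
and a compact metrizable group is S-separable if and only if it has a compact subgroup with
countable quotient. -/
theorem sSep_iff (G : Subgroup (Multiplicative E × K))
    (hG : IsClosed (G : Set (Multiplicative E × K))) :
    SSeparable G ↔ ∃ N : Subgroup G, IsCompact (N : Set G) ∧ Countable (G ⧸ N) :=
  ⟨fun h => exists_compact_of_countable G hG (countable_of_discrete G (discrete_of_sSep G hG h)),
    sSep_of_exists G⟩

/-- A connected closed subgroup is S-separable if and only if it is compact. -/
theorem sSep_iff_compact (G : Subgroup (Multiplicative E × K))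
    (hG : IsClosed (G : Set (Multiplicative E × K))) [ConnectedSpace G] :
    SSeparable G ↔ CompactSpace G := by
  constructor
  · intro h
    have h1 := discrete_of_sSep G hG h
    let f : G → pr G := fun x => ⟨Multiplicative.toAdd ((x : Multiplicative E × K).1), x, x.2, rfl⟩
    have hf : Continuous f := Continuous.subtype_mk
      (continuous_toAdd.comp (continuous_fst.comp continuous_subtype_val)) _
    have hfs : Function.Surjective f := by
      rintro ⟨x, y, hy, hyx⟩
      refine ⟨⟨y, hy⟩, Subtype.ext ?_⟩
      exact congrArg Multiplicative.toAdd hyx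
    have h2 : ConnectedSpace (pr G) := hfs.connectedSpace hf
    have h3 : Subsingleton (pr G) := PreconnectedSpace.trivial_of_discrete
    have h4 : (G : Set (Multiplicative E × K)) = ({1} ×ˢ univ) ∩ (G : Set _) := by
      ext x
      constructor
      · intro hx
        refine ⟨⟨?_, mem_univ _⟩, hx⟩
        have h5 : f ⟨x, hx⟩ = 0 := Subsingleton.elim _ _
        exact congrArg Subtype.val h5
      · exact fun hx => hx.2
    have h6 : IsCompact (G : Set (Multiplicative E × K)) := by
      rw [h4]
      exact (isCompact_singleton.prod isCompact_univ).inter_right hG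
    exact isCompact_iff_compactSpace.1 h6
  · intro h
    refine sSep_of_exists G ⟨⊤, ?_, ?_⟩
    · rw [Subgroup.coe_top]
      exact isCompact_univ
    · have : Subsingleton (G ⧸ (⊤ : Subgroup G)) := QuotientGroup.subsingleton_quotient_top
      infer_instance

end

end Pool.Agent.Y167.SSep
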